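import Mathlib
import Pool.Agent.H71.Con6

namespace Pool.Agent.Results.MP_b7123c_al.No

/-- the total order `o` is invariant under multiplication on both sides -/
def BiInv {G : Type} [Group G] (o : LinearOrder G) : Prop :=
  ∀ a b c : G, o.le a b → o.le (c * a) (c * b) ∧ o.le (a * c) (b * c)

/-- `H` is convex for at least one two-sided invariant total order on `G` -/
def RelConvex {G : Type} [Group G] (H : Subgroup G) : Prop :=
  ∃ o : LinearOrder G, BiInv o ∧ ∀ h₁ ∈ H, ∀ h₂ ∈ H, ∀ g : G, o.le h₁ g → o.le g h₂ → g ∈ H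

open H71.Con

theorem result (G : Type) [Group G] (hO : ∃ o : LinearOrder G, BiInv o)
    (h3 : derivedSeries G 3 = ⊥) (h2 : derivedSeries G 2 ≠ ⊥) :
    ¬ ∃! H : Subgroup G, H.Normal ∧ RelConvex H ∧ H ≠ ⊥ ∧ H ≠ ⊤ := by
  have a : ∀ H : Subgroup G, H.Normal → RelConvex H → BC H := fun H n ⟨o, h, c⟩ => by
    have : MulLeftMono G := ⟨fun c a b e => (h a b c e).1⟩
    have : MulRightMono G := ⟨fun c a b e => (h a b c e).2⟩
    exact Cvx.bc' (fun x y a b hy => c 1 (one_mem _) y hy x a b) n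
  obtain ⟨o, ho⟩ := hO
  have hB : Bi G := a ⊥ inferInstance ⟨o, ho, fun x hx y hy g a b =>
    Subgroup.mem_bot.2 (o.le_antisymm _ _ (Subgroup.mem_bot.1 hy ▸ b) (Subgroup.mem_bot.1 hx ▸ a))⟩
  rintro ⟨H, ⟨n, r, -, -⟩, u⟩
  refine h2 (len_three hB (a H n r) (fun N hN => ?_) h3)
  by_contra c
  push Not at c
  obtain ⟨o, _, _, k⟩ := order_cvx hB hN
  refine c.2.1 (u N ⟨hN.normal, ⟨o, fun a b c e => ⟨mul_le_mul' le_rfl e, mul_le_mul' e le_rfl⟩,
    fun x hx y hy g a b => ?_⟩, c.1, c.2.2⟩)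
  exact (mul_mem_cancel_left (inv_mem hx)).1 (k _ _ (by simpa using a) (mul_le_mul' le_rfl b)
    (mul_mem (inv_mem hx) hy))

end Pool.Agent.Results.MP_b7123c_al.No
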